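import Pool.Agent.Lib.MP_c984ee_an.MainP
import Pool.Agent.Lib.MP_c984ee_an.Weight

open MeasureTheory Complex
open scoped ENNReal

namespace Pool.Agent.Results.MP_c984ee_an.PowerWeightEigenvalues

open Pool.Agent.Lib.MP_c984ee_an

/-- The spectrum of the Beurling operator on a weighted space `L^p(w)`, `w ∈ A_p`, need not be
continuous. For `1 < α < 2` the weight `w(z) = |z|^{-α}` belongs to `A_p` for every `p > 1`; there
is exactly one bounded operator on `L^2(w)` that is given by the principal value integral of the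
Beurling kernel on smooth compactly supported functions; and, for every `1 < p < ∞`, every complex
number of modulus one is an eigenvalue of the Beurling operator on `L^p(w)`. -/
theorem result (α : ℝ) (hα₁ : 1 < α) (hα₂ : α < 2) :
    (∀ p : ℝ, 1 < p → IsMuckenhouptWeight p (powerWeight α)) ∧
    (∃! T : WOp 2 (powerWeight α), IsBeurling T) ∧
    ∀ (p : ℝ≥0∞) [Fact (1 ≤ p)], 1 < p → p ≠ ⊤ → ∀ T : WOp p (powerWeight α),
      IsBeurling T → ∀ c : ℂ, ‖c‖ = 1 → IsEigenvalue T c := by
  refine ⟨fun p hp => isMuckenhouptWeight_pw (by linarith) hα₂ hp, ?_, ?_⟩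
  · exact ⟨beurlingOp (α := α) (by linarith) hα₂, isBeurlingOperator_beurlingOp _ _,
      fun T hT => IsBeurlingOperator.unique (α := α) (by linarith) hα₂ hT⟩
  · intro p _ _ hp T hT c hc
    have h := hasEigenvalue_p (α := α) hp hα₁ hα₂ (T := T) hT hc
    obtain ⟨f, hf⟩ := h.exists_hasEigenvector
    exact ⟨f, hf.2, hf.apply_eq_smul⟩

end Pool.Agent.Results.MP_c984ee_an.PowerWeightEigenvalues
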